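import Pool.Agent.Lib.MP_d55432_al.SIX.Iface

/-!
# SIX, module LIST: homogeneous images contained in the set of matrices of rank at most 2
-/

namespace Pool.Agent.Lib.MP_d55432_al.SIX.H87

open Matrix LieAlgebra

attribute [local instance 100] LieRing.ofAssociativeRing

namespace ListAux

variable {K : Type*} [Field K]

theorem univ' {X : Type*} {A : Set (X → K)} (h0 : (0 : X → K) ∈ A) :
    BoolComb A (Set.univ : Set X) := by
  have h := BoolComb.zeros (0 : X → K) h0
  have h2 : {x : X | (0 : X → K) x = 0} = Set.univ := by ext x; simp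
  rwa [h2] at h

theorem finset {X : Type*} {A : Set (X → K)} (h0 : (0 : X → K) ∈ A) {ι : Type*} (s : Finset ι)
    (S : ι → Set X) (hS : ∀ i ∈ s, BoolComb A (S i)) : BoolComb A {x | ∀ i ∈ s, x ∈ S i} := by
  classical
  induction s using Finset.induction_on with
  | empty =>
    have h2 : {x : X | ∀ i ∈ (∅ : Finset ι), x ∈ S i} = Set.univ := by ext x; simp
    rw [h2]
    exact univ' h0
  | insert a s ha ih =>
    have h2 : {x : X | ∀ i ∈ insert a s, x ∈ S i} = S a ∩ {x | ∀ i ∈ s, x ∈ S i} := by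
      ext x; simp
    rw [h2]
    exact (hS a (Finset.mem_insert_self _ _)).inter
      (ih fun i hi => hS i (Finset.mem_insert_of_mem hi))

theorem all {X : Type*} {A : Set (X → K)} (h0 : (0 : X → K) ∈ A) {ι : Type*} [Fintype ι]
    (g : ι → X → K) (hg : ∀ i, g i ∈ A) : BoolComb A {x | ∀ i, g i x = 0} := by
  have h := finset h0 (Finset.univ : Finset ι) (fun i => {x | g i x = 0})
    (fun i _ => BoolComb.zeros _ (hg i))
  have h2 : {x : X | ∀ i ∈ (Finset.univ : Finset ι), x ∈ {x | g i x = 0}} =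
      {x | ∀ i, g i x = 0} := by ext x; simp
  rwa [h2] at h

theorem entry_mem (i j : Fin 6) : (fun x : L6 K => x.1 i j) ∈ PolyOn K (L6 K) := by
  let ψ : Module.Dual K (L6 K) :=
    { toFun := fun X => X.1 i j
      map_add' := fun _ _ => rfl
      map_smul' := fun _ _ => rfl }
  exact Algebra.subset_adjoin ⟨ψ, rfl⟩

theorem sq_entry_mem (i j : Fin 6) : (fun x : L6 K => (x.1 * x.1) i j) ∈ PolyOn K (L6 K) := by
  have h : (fun X : L6 K => (X.1 * X.1) i j) =
      ∑ k : Fin 6, (fun X : L6 K => X.1 i k) * (fun X : L6 K => X.1 k j) := by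
    funext X
    rw [Finset.sum_apply, Matrix.mul_apply]
    rfl
  rw [h]
  exact Subalgebra.sum_mem _ fun k _ => Subalgebra.mul_mem _ (entry_mem i k) (entry_mem k j)

theorem pf4_mem (a b c d : Fin 6) : (fun x : L6 K => pf4 x.1 a b c d) ∈ PolyOn K (L6 K) :=
  Subalgebra.add_mem _ (Subalgebra.sub_mem _
    (Subalgebra.mul_mem _ (entry_mem a b) (entry_mem c d))
    (Subalgebra.mul_mem _ (entry_mem a c) (entry_mem b d)))
    (Subalgebra.mul_mem _ (entry_mem a d) (entry_mem b c))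

theorem neg_pf4_mem (a b c d : Fin 6) : (fun x : L6 K => -pf4 x.1 a b c d) ∈ PolyOn K (L6 K) :=
  Subalgebra.neg_mem _ (pf4_mem a b c d)

theorem sharp_mem (i j : Fin 6) : (fun x : L6 K => sharpM x.1 i j) ∈ PolyOn K (L6 K) := by
  have h0 : (fun _ : L6 K => (0 : K)) ∈ PolyOn K (L6 K) := Subalgebra.zero_mem _
  fin_cases i <;> fin_cases j <;>
    first
    | exact h0
    | exact pf4_mem _ _ _ _
    | exact neg_pf4_mem _ _ _ _

theorem s1_mem : (fun x : L6 K => s1 x.1) ∈ PolyOn K (L6 K) := by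
  have h : ∀ i j, (fun x : L6 K => x.1 i j ^ 2) ∈ PolyOn K (L6 K) := fun i j =>
    Subalgebra.pow_mem _ (entry_mem i j) 2
  have ha : ∀ f g : L6 K → K, f ∈ PolyOn K (L6 K) → g ∈ PolyOn K (L6 K) →
      (fun x => f x + g x) ∈ PolyOn K (L6 K) := fun f g hf hg => Subalgebra.add_mem _ hf hg
  unfold s1
  repeat' refine ha _ _ ?_ ?_
  all_goals exact h _ _

theorem zero_mem' : (0 : L6 K → K) ∈ (PolyOn K (L6 K) : Set (L6 K → K)) := Subalgebra.zero_mem _

theorem bool_rank2 : BoolComb (PolyOn K (L6 K) : Set (L6 K → K)) {x : L6 K | sharp x = 0} := by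
  have h1 := all zero_mem' (fun (ij : Fin 6 × Fin 6) (x : L6 K) => sharpM x.1 ij.1 ij.2)
    (fun ij => sharp_mem _ _)
  have h2 : {x : L6 K | ∀ ij : Fin 6 × Fin 6, sharpM x.1 ij.1 ij.2 = 0} =
      {x : L6 K | sharp x = 0} := by
    ext x
    constructor
    · intro h
      apply Subtype.ext
      ext i j
      exact h (i, j)
    · intro h ij
      have h3 := congrArg Subtype.val (show sharp x = 0 from h)
      exact congrFun (congrFun h3 ij.1) ij.2
  rwa [h2] at h1

theorem bool_zero : BoolComb (PolyOn K (L6 K) : Set (L6 K → K)) {x : L6 K | x = 0} := by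
  have h1 := all zero_mem' (fun (ij : Fin 6 × Fin 6) (x : L6 K) => x.1 ij.1 ij.2)
    (fun ij => entry_mem _ _)
  have h2 : {x : L6 K | ∀ ij : Fin 6 × Fin 6, x.1 ij.1 ij.2 = 0} = {x : L6 K | x = 0} := by
    ext x
    constructor
    · intro h
      apply Subtype.ext
      ext i j
      exact h (i, j)
    · intro h ij
      have h3 := congrArg Subtype.val (show x = 0 from h)
      exact congrFun (congrFun h3 ij.1) ij.2
  rwa [h2] at h1

theorem bool_sq : BoolComb (PolyOn K (L6 K) : Set (L6 K → K)) {x : L6 K | x.1 * x.1 = 0} := by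
  have h1 := all zero_mem' (fun (ij : Fin 6 × Fin 6) (x : L6 K) => (x.1 * x.1) ij.1 ij.2)
    (fun ij => sq_entry_mem _ _)
  have h2 : {x : L6 K | ∀ ij : Fin 6 × Fin 6, (x.1 * x.1) ij.1 ij.2 = 0} =
      {x : L6 K | x.1 * x.1 = 0} := by
    ext x
    constructor
    · intro h
      ext i j
      exact h (i, j)
    · intro h ij
      have h3 : x.1 * x.1 = 0 := h
      change (x.1 * x.1) ij.1 ij.2 = 0
      rw [h3]
      rfl
  rwa [h2] at h1

theorem bool_s1 : BoolComb (PolyOn K (L6 K) : Set (L6 K → K)) {x : L6 K | s1 x.1 = 0} :=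
  BoolComb.zeros _ s1_mem

theorem bool_prop (P : Prop) : BoolComb (PolyOn K (L6 K) : Set (L6 K → K)) {_x : L6 K | P} := by
  by_cases h : P
  · have h2 : {_x : L6 K | P} = Set.univ := by ext x; simp [h]
    rw [h2]
    exact univ' zero_mem'
  · have h2 : {_x : L6 K | P} = (Set.univ : Set (L6 K))ᶜ := by ext x; simp [h]
    rw [h2]
    exact (univ' zero_mem').compl

theorem eq_zero_of_rank {n : ℕ} {x : Matrix (Fin n) (Fin n) K} (h : x.rank = 0) : x = 0 := by
  have h1 : Module.finrank K (LinearMap.range x.mulVecLin) = 0 := h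
  rw [Submodule.finrank_eq_zero, LinearMap.range_eq_bot] at h1
  ext i j
  have h2 := LinearMap.congr_fun h1 (Pi.single j 1)
  have h3 := congrFun h2 i
  simpa using h3

/-- The set `DT` in terms of equations. -/
theorem mem_DT_iff (hD : DARB_S K) (hN : NIL_S K) {T : Set ℕ} (x : L6 K) :
    x ∈ DT K T ↔ sharp x = 0 ∧ (x = 0 ∨ s1 x.1 ≠ 0 ∨ (0 ∈ T ∧ x.1 * x.1 = 0) ∨
      (1 ∈ T ∧ s1 x.1 = 0 ∧ x.1 * x.1 ≠ 0)) := by
  have h2T : (2 : ℕ) ∈ T ∪ {2} := Or.inr rfl
  have hnT : ∀ r, r ≠ 2 → (r ∈ T ∪ {2} ↔ r ∈ T) := by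
    intro r hr
    constructor
    · rintro (h | h)
      · exact h
      · exact absurd h hr
    · exact Or.inl
  rw [← hD.1 x]
  change (x.1.rank ≤ 2 ∧ (x = 0 ∨ (x.1 * x.1).rank ∈ T ∪ {2})) ↔ _
  constructor
  · rintro ⟨hr, h⟩
    refine ⟨hr, ?_⟩
    by_cases hx : x = 0
    · exact Or.inl hx
    right
    have h := h.resolve_left hx
    rcases hN.1 x hr hx with ⟨h1, h2⟩ | ⟨h1, h2 | h2⟩
    · exact Or.inl h1
    · right; right
      rw [h2, hnT 1 (by norm_num)] at h
      refine ⟨h, h1, fun h0 => ?_⟩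
      rw [h0, Matrix.rank_zero] at h2
      exact absurd h2 (by norm_num)
    · right; left
      rw [h2, hnT 0 (by norm_num)] at h
      refine ⟨h, ?_⟩
      exact eq_zero_of_rank h2
  · rintro ⟨hr, h⟩
    refine ⟨hr, ?_⟩
    by_cases hx : x = 0
    · exact Or.inl hx
    right
    have h := h.resolve_left hx
    rcases hN.1 x hr hx with ⟨h1, h2⟩ | ⟨h1, h2 | h2⟩
    · rw [h2]; exact h2T
    · rcases h with h | ⟨_, h⟩ | ⟨h, _⟩
      · exact absurd h1 h
      · rw [h, Matrix.rank_zero] at h2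
        exact absurd h2 (by norm_num)
      · rw [h2]; exact Or.inl h
    · have h0 : x.1 * x.1 = 0 := eq_zero_of_rank h2
      rcases h with h | ⟨h, _⟩ | ⟨_, _, h⟩
      · exact absurd h1 h
      · rw [h2]; exact Or.inl h
      · exact absurd h0 h

theorem bool_DT (hD : DARB_S K) (hN : NIL_S K) {T : Set ℕ} :
    BoolComb (PolyOn K (L6 K) : Set (L6 K → K)) (DT K T) := by
  have h : DT K T = {x : L6 K | sharp x = 0} ∩ ({x : L6 K | x = 0} ∪
      ({x : L6 K | s1 x.1 = 0}ᶜ ∪ (({_x : L6 K | 0 ∈ T} ∩ {x : L6 K | x.1 * x.1 = 0}) ∪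
        ({_x : L6 K | 1 ∈ T} ∩ ({x : L6 K | s1 x.1 = 0} ∩ {x : L6 K | x.1 * x.1 = 0}ᶜ))))) := by
    ext x
    rw [mem_DT_iff hD hN]
    rfl
  rw [h]
  exact bool_rank2.inter (bool_zero.union (bool_s1.compl.union
    (((bool_prop _).inter bool_sq).union ((bool_prop _).inter (bool_s1.inter bool_sq.compl)))))

theorem rank_smul_le {n : ℕ} (t : K) (x : Matrix (Fin n) (Fin n) K) : (t • x).rank ≤ x.rank := by
  have h : t • x = (t • (1 : Matrix (Fin n) (Fin n) K)) * x := by
    rw [Matrix.smul_mul, Matrix.one_mul]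
  rw [h]
  exact Matrix.rank_mul_le_right _ _

theorem rank_smul_eq {n : ℕ} (t : K) (ht : t ≠ 0) (x : Matrix (Fin n) (Fin n) K) :
    (t • x).rank = x.rank := by
  refine le_antisymm (rank_smul_le t x) ?_
  have h := rank_smul_le t⁻¹ (t • x)
  rwa [smul_smul, inv_mul_cancel₀ ht, one_smul] at h

end ListAux

open ListAux in
theorem list (K : Type*) [Field K] [IsAlgClosed K] [CharZero K] (hS : SIMPLE_S K)
    (hD : DARB_S K) (hE : EXIST_S K) (hN : NIL_S K) (hR : RANK2_S K) : LIST_S K := by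
  intro T _
  have : FiniteDimensional K (L6 K) :=
    inferInstanceAs (FiniteDimensional K (LieAlgebra.Orthogonal.so (Fin 6) K).toSubmodule)
  have : LieAlgebra.IsSimple K (L6 K) := hS
  rw [images_iff]
  refine ⟨⟨?_, Or.inl rfl⟩, ?_, ?_, bool_DT hD hN, ?_⟩
  · change ((0 : L6 K).1).rank ≤ 2
    have h0 : (0 : L6 K).1 = 0 := rfl
    rw [h0, Matrix.rank_zero]
    norm_num
  · rintro t x ⟨hr, hx⟩
    refine ⟨(rank_smul_le t x.1).trans hr, ?_⟩
    by_cases ht : t = 0
    · left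
      rw [ht, zero_smul]
    · rcases hx with hx | hx
      · left
        rw [hx, smul_zero]
      · right
        have h1 : (t • x).1 * (t • x).1 = (t * t) • (x.1 * x.1) := by
          change (t • x.1) * (t • x.1) = _
          rw [Matrix.smul_mul, Matrix.mul_smul, smul_smul]
        rw [h1, rank_smul_eq _ (mul_ne_zero ht ht)]
        exact hx
  · rintro φ x ⟨hr, hx⟩
    obtain ⟨h1, h2⟩ := hN.2.2 φ x hr
    refine ⟨h1, ?_⟩
    rcases hx with hx | hx
    · left
      rw [hx, map_zero]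
    · right
      rw [h2]
      exact hx
  · obtain ⟨m, d, p, hp, him⟩ := hE 1 (by norm_num)
    refine ⟨m, d, p, hp, ?_, ?_⟩
    · rintro x ⟨hr, _⟩
      rw [him]
      exact hr
    · intro g hg hg0 y hy
      rw [him] at hy
      have hy2 : y.1.rank ≤ 2 := hy
      obtain ⟨u, v, rfl⟩ := (hD.2.2.1 y).1 hy2
      refine hR.1 g hg ?_ u v
      intro x hx hs
      apply hg0
      rw [mem_DT_iff hD hN]
      exact ⟨hx, Or.inr (Or.inl hs)⟩

end Pool.Agent.Lib.MP_d55432_al.SIX.H87
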