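import Pool.Agent.Lib.MP_d55432_al.SIX.Iface

/-!
# SIX, module PAR2: algebraic independence of two invariants
-/

namespace Pool.Agent.Lib.MP_d55432_al.SIX.H87

open Matrix MvPolynomial

namespace Par2Aux

/-- First index of the pair number `k`. -/
def pa : Fin 15 → Fin 6 := ![0, 0, 0, 0, 0, 1, 1, 1, 1, 2, 2, 2, 3, 3, 4]

/-- Second index of the pair number `k`. -/
def pb : Fin 15 → Fin 6 := ![1, 2, 3, 4, 5, 2, 3, 4, 5, 3, 4, 5, 4, 5, 5]

theorem exists_pair : ∀ i j : Fin 6, i < j → ∃ k, pa k = i ∧ pb k = j := by decide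

theorem pattern_ne : ∀ k l : Fin 15, k ≠ l →
    ∃ s : Fin 6, sgI s (pa k) * sgI s (pb k) ≠ sgI s (pa l) * sgI s (pb l) := by decide

theorem pattern_sharp_ne : ∀ k l : Fin 15,
    ∃ s : Fin 6, sgI s (pa k) * sgI s (pb k) ≠ -(sgI s (pa l) * sgI s (pb l)) := by decide

theorem pattern_neg : ∀ k : Fin 15, ∃ s : Fin 6, sgI s (pa k) * sgI s (pb k) = -1 := by decide

theorem pattern_sharp_neg : ∀ k : Fin 15, ∃ s : Fin 6, -(sgI s (pa k) * sgI s (pb k)) = -1 := by
  decide

theorem s1_eq {A : Type*} [CommRing A] (x : M6 A) : s1 x = ∑ k, x (pa k) (pb k) ^ 2 := by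
  simp [s1, pa, pb, Fin.sum_univ_succ]
  ring

theorem exists_entry {A : Type*} [CommRing A] (h2 : ∀ a : A, a = -a → a = 0) (x : M6 A)
    (hx : xᵀ = -x) (h : x ≠ 0) : ∃ k, x (pa k) (pb k) ≠ 0 := by
  by_contra hcon
  push Not at hcon
  apply h
  have hsk : ∀ i j, x j i = -x i j := fun i j => by
    have := congrFun (congrFun hx i) j
    simpa using this
  have hup : ∀ i j, i < j → x i j = 0 := by
    intro i j hij
    obtain ⟨k, rfl, rfl⟩ := exists_pair i j hij
    exact hcon k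
  ext i j
  rcases lt_trichotomy i j with hij | hij | hij
  · exact hup i j hij
  · subst hij
    exact h2 _ (hsk i i)
  · rw [hsk j i, hup j i hij, neg_zero]
    rfl

variable {K : Type*} [Field K] {τ : Type*}

theorem two_tor [CharZero K] (a : MvPolynomial τ K) (h : a = -a) : a = 0 := by
  have h2 : (2 : MvPolynomial τ K) * a = 0 := by linear_combination h
  exact (mul_eq_zero.1 h2).resolve_left two_ne_zero

theorem sgnHom_pf4 (ε : τ → ℤ) (g : Fin 6 → ℤ) (F : M6 (MvPolynomial τ K))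
    (hF : ∀ i j, Degrees.sgnHom K ε (F i j) = C ((g i * g j : ℤ) : K) * F i j) (a b c d : Fin 6) :
    Degrees.sgnHom K ε (pf4 F a b c d) = C ((g a * g b * g c * g d : ℤ) : K) * pf4 F a b c d := by
  simp only [pf4, map_add, map_sub, map_mul, hF, Int.cast_mul]
  ring

theorem sgnHom_sharpM (ε : τ → ℤ) (s : Fin 6) (F : M6 (MvPolynomial τ K))
    (hF : ∀ i j, Degrees.sgnHom K ε (F i j) = C ((sgI s i * sgI s j : ℤ) : K) * F i j)
    (k : Fin 15) :
    Degrees.sgnHom K ε (sharpM F (pa k) (pb k)) =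
      C ((-(sgI s (pa k) * sgI s (pb k)) : ℤ) : K) * sharpM F (pa k) (pb k) := by
  have hp := sgnHom_pf4 ε (sgI s) F hF
  have h1 : ∀ a b c d e f : Fin 6, sgI s a * sgI s b * sgI s c * sgI s d = -(sgI s e * sgI s f) →
      Degrees.sgnHom K ε (pf4 F a b c d) = C ((-(sgI s e * sgI s f) : ℤ) : K) * pf4 F a b c d := by
    intro a b c d e f h
    rw [hp, h]
  have h2 : ∀ a b c d e f : Fin 6, sgI s a * sgI s b * sgI s c * sgI s d = -(sgI s e * sgI s f) →
      Degrees.sgnHom K ε (-pf4 F a b c d) =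
        C ((-(sgI s e * sgI s f) : ℤ) : K) * -pf4 F a b c d := by
    intro a b c d e f h
    rw [map_neg, hp, h, mul_neg]
  fin_cases k
  · exact h1 2 3 4 5 0 1 (by fin_cases s <;> decide)
  · exact h2 1 3 4 5 0 2 (by fin_cases s <;> decide)
  · exact h1 1 2 4 5 0 3 (by fin_cases s <;> decide)
  · exact h2 1 2 3 5 0 4 (by fin_cases s <;> decide)
  · exact h1 1 2 3 4 0 5 (by fin_cases s <;> decide)
  · exact h1 0 3 4 5 1 2 (by fin_cases s <;> decide)
  · exact h2 0 2 4 5 1 3 (by fin_cases s <;> decide)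
  · exact h1 0 2 3 5 1 4 (by fin_cases s <;> decide)
  · exact h2 0 2 3 4 1 5 (by fin_cases s <;> decide)
  · exact h1 0 1 4 5 2 3 (by fin_cases s <;> decide)
  · exact h2 0 1 3 5 2 4 (by fin_cases s <;> decide)
  · exact h1 0 1 3 4 2 5 (by fin_cases s <;> decide)
  · exact h1 0 1 2 5 3 4 (by fin_cases s <;> decide)
  · exact h2 0 1 2 4 3 5 (by fin_cases s <;> decide)
  · exact h1 0 1 2 3 4 5 (by fin_cases s <;> decide)

theorem exists_monomialOrder (τ : Type) [Finite τ] : Nonempty (MonomialOrder.{0, 0} τ) := by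
  classical
  have := Fintype.ofFinite τ
  let _ : LinearOrder τ := LinearOrder.lift' (Fintype.equivFin τ) (Equiv.injective _)
  exact ⟨MonomialOrder.lex⟩

end Par2Aux

open Par2Aux in
theorem par2 (K : Type*) [Field K] [CharZero K] : PAR2_S K := by
  intro τ _ ε hε F hF hs
  obtain ⟨mo⟩ := exists_monomialOrder τ
  have hdF : ∀ k, F (pa k) (pb k) ≠ 0 → ∀ s, Degrees.sgn (ε s) (mo.degree (F (pa k) (pb k))) =
      sgI s (pa k) * sgI s (pb k) := fun k hk s =>
    Degrees.sgn_degree mo (ε s) _ hk _ (hs s _ _)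
  have hdS : ∀ k, sharpM F (pa k) (pb k) ≠ 0 → ∀ s,
      Degrees.sgn (ε s) (mo.degree (sharpM F (pa k) (pb k))) =
      -(sgI s (pa k) * sgI s (pb k)) := fun k hk s =>
    Degrees.sgn_degree mo (ε s) _ hk _ (sgnHom_sharpM (ε s) s F (hs s) k)
  have hsum : ∀ x : M6 (MvPolynomial τ K), s1 x = ∑ k, C ((fun _ => 1 : Fin 15 → K) k) *
      (fun k => x (pa k) (pb k)) k ^ 2 := by
    intro x
    rw [s1_eq]
    simp only [C_1, one_mul]
  have h1 : F ≠ 0 → ∃ k, F (pa k) (pb k) ≠ 0 ∧ mo.degree (s1 F) =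
      2 • mo.degree (F (pa k) (pb k)) ∧ s1 F ≠ 0 := by
    intro hF0
    rw [hsum]
    refine Degrees.degree_sum_squares mo (fun _ => 1) (fun _ => one_ne_zero)
      (fun k => F (pa k) (pb k)) ?_ (exists_entry two_tor F hF hF0)
    intro i j hi hj hij h
    obtain ⟨s, hs'⟩ := pattern_ne i j hij
    apply hs'
    rw [← hdF i hi s, ← hdF j hj s]
    exact congrArg _ h
  refine ⟨fun hF0 => ?_, fun hS0 => ?_⟩
  · obtain ⟨k, _, _, h⟩ := h1 hF0
    exact h
  · have h2 : ∃ k, sharpM F (pa k) (pb k) ≠ 0 ∧ mo.degree (s1 (sharpM F)) =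
        2 • mo.degree (sharpM F (pa k) (pb k)) ∧ s1 (sharpM F) ≠ 0 := by
      rw [hsum]
      refine Degrees.degree_sum_squares mo (fun _ => 1) (fun _ => one_ne_zero)
        (fun k => sharpM F (pa k) (pb k)) ?_ (exists_entry two_tor _ (sharpM_skew F) hS0)
      intro i j hi hj hij h
      obtain ⟨s, hs'⟩ := pattern_ne i j hij
      apply hs'
      apply neg_injective
      rw [← hdS i hi s, ← hdS j hj s]
      exact congrArg _ h
    have hF0 : F ≠ 0 := by
      rintro rfl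
      apply hS0
      ext i j
      fin_cases i <;> fin_cases j <;> simp [sharpM, pf4]
    obtain ⟨k, hk, hdk, hnk⟩ := h1 hF0
    obtain ⟨l, hl, hdl, hnl⟩ := h2
    intro Φ hΦ
    refine Degrees.aeval_ne_zero mo (s1 F) (s2 F) hnk hnl _ _ hdk hdl ?_ Φ hΦ
    refine Degrees.exponents_independent (J := Fin 6) ε hε _ _ ?_ ?_ ?_
    · obtain ⟨s, h⟩ := pattern_neg k
      exact ⟨s, by rw [hdF k hk s, h]⟩
    · obtain ⟨s, h⟩ := pattern_sharp_neg l
      exact ⟨s, by rw [hdS l hl s, h]⟩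
    · obtain ⟨s, h⟩ := pattern_sharp_ne k l
      exact ⟨s, by rw [hdF k hk s, hdS l hl s]; exact h⟩

end Pool.Agent.Lib.MP_d55432_al.SIX.H87
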