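import Pool.Agent.Lib.MP_d55432_al.SIX.Iface

/-!
# SIX, module REG2: diagonalisation of regular traceless matrices with `tr X ^ 3 = 0`
-/

namespace Pool.Agent.Lib.MP_d55432_al.SIX.H87

open Matrix LieAlgebra

variable {K : Type*} [Field K]

/-- Four distinct eigenvalues: diagonalisation. -/
theorem exists_diag (X : M4 K) (l : Fin 4 → K) (hl : Function.Injective l)
    (hd : ∀ i, (l i • (1 : M4 K) - X).det = 0) :
    ∃ g h : M4 K, g * h = 1 ∧ h * g = 1 ∧ X = g * Matrix.diagonal l * h := by
  classical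
  have h1 : ∀ i, ∃ v : Fin 4 → K, v ≠ 0 ∧ (l i • (1 : M4 K) - X) *ᵥ v = 0 := fun i =>
    (Matrix.exists_mulVec_eq_zero_iff).2 (hd i)
  choose v hv0 hv using h1
  have hXv : ∀ i, X *ᵥ v i = l i • v i := by
    intro i
    have := hv i
    rw [Matrix.sub_mulVec, Matrix.smul_mulVec, Matrix.one_mulVec, sub_eq_zero] at this
    exact this.symm
  have hind : LinearIndependent K v := by
    refine Module.End.eigenvectors_linearIndependent' (Matrix.toLin' X) l hl v ?_
    intro i
    refine ⟨?_, hv0 i⟩
    rw [Module.End.mem_eigenspace_iff, Matrix.toLin'_apply]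
    exact hXv i
  let g : M4 K := Matrix.of fun i j => v j i
  have hcol : g.col = v := by
    funext j i
    rfl
  have hg : IsUnit g := by
    rw [← Matrix.linearIndependent_cols_iff_isUnit, hcol]
    exact hind
  have hgd : IsUnit g.det := (Matrix.isUnit_iff_isUnit_det g).1 hg
  refine ⟨g, g⁻¹, Matrix.mul_nonsing_inv g hgd, Matrix.nonsing_inv_mul g hgd, ?_⟩
  have h2 : X * g = g * Matrix.diagonal l := by
    ext i j
    rw [Matrix.mul_diagonal]
    have h3 := congrFun (hXv j) i
    rw [Matrix.mulVec, dotProduct, Pi.smul_apply, smul_eq_mul] at h3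
    rw [Matrix.mul_apply]
    change ∑ k, X i k * v j k = v j i * l j
    rw [h3, mul_comm]
  rw [← h2, Matrix.mul_assoc, Matrix.mul_nonsing_inv g hgd, Matrix.mul_one]

theorem reg2 (K : Type*) [Field K] [IsAlgClosed K] [CharZero K] (hCHB : CHB_S K) : REG2_S K := by
  intro X hX0 hX3 hne
  have hdet := hCHB X hX0
  set P2 := (X * X).trace with hP2
  set P4 := (X * X * X * X).trace with hP4
  set q : K := P2 ^ 2 / 8 - P4 / 4 with hq
  obtain ⟨s, hs⟩ := IsAlgClosed.exists_pow_nat_eq ((P2 / 2) ^ 2 - 4 * q) (n := 2) (by norm_num)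
  obtain ⟨α, hα⟩ := IsAlgClosed.exists_pow_nat_eq ((P2 / 2 + s) / 2) (n := 2) (by norm_num)
  obtain ⟨β, hβ⟩ := IsAlgClosed.exists_pow_nat_eq ((P2 / 2 - s) / 2) (n := 2) (by norm_num)
  have h2 : (2 : K) ≠ 0 := two_ne_zero
  have hq0 : q ≠ 0 := left_ne_zero_of_mul hne
  have hD0 : (P2 / 2) ^ 2 - 4 * q ≠ 0 := right_ne_zero_of_mul hne
  have hs0 : s ≠ 0 := by
    rintro rfl
    rw [zero_pow (by norm_num)] at hs
    exact hD0 hs.symm
  have hprod : α ^ 2 * β ^ 2 = q := by
    rw [hα, hβ]
    linear_combination (-1 / 4) * hs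
  have hsub : α ^ 2 - β ^ 2 = s := by
    rw [hα, hβ]
    ring
  have hα0 : α ≠ 0 := by
    rintro rfl
    apply hq0
    rw [← hprod]
    ring
  have hβ0 : β ≠ 0 := by
    rintro rfl
    apply hq0
    rw [← hprod]
    ring
  have hαα : α ≠ -α := by
    intro h
    apply hα0
    have h3 : (2 : K) * α = 0 := by linear_combination h
    exact (mul_eq_zero.1 h3).resolve_left h2
  have hββ : β ≠ -β := by
    intro h
    apply hβ0
    have h3 : (2 : K) * β = 0 := by linear_combination h
    exact (mul_eq_zero.1 h3).resolve_left h2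
  have hαβ : ∀ e f : K, e ^ 2 = 1 → f ^ 2 = 1 → e * α ≠ f * β := by
    intro e f he hf h
    apply hs0
    rw [← hsub]
    have h3 : (e * α) ^ 2 = (f * β) ^ 2 := by rw [h]
    rw [mul_pow, mul_pow, he, hf] at h3
    linear_combination h3
  have h11 := hαβ 1 1 (by norm_num) (by norm_num)
  have h12 := hαβ 1 (-1) (by norm_num) (by norm_num)
  have h21 := hαβ (-1) 1 (by norm_num) (by norm_num)
  have h22 := hαβ (-1) (-1) (by norm_num) (by norm_num)
  simp only [one_mul, neg_mul] at h11 h12 h21 h22
  obtain ⟨g, h, hgh, hhg, hXg⟩ := exists_diag X ![α, -α, β, -β]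
    (by
      intro i j hij
      fin_cases i <;> fin_cases j <;> simp at hij ⊢ <;>
        first
        | exact hαα hij
        | exact hαα hij.symm
        | exact hββ hij
        | exact hββ hij.symm
        | exact h11 hij
        | exact h12 hij
        | exact h21 hij
        | exact h22 hij
        | exact h11 hij.symm
        | exact h12 hij.symm
        | exact h21 hij.symm)
    (by
      have hroot : ∀ T : K, (T ^ 2 = α ^ 2 ∨ T ^ 2 = β ^ 2) → (T • (1 : M4 K) - X).det = 0 := by
        intro T hT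
        rw [hdet, hX3]
        have h4 : T ^ 4 - P2 / 2 * T ^ 2 - 0 / 3 * T + q = (T ^ 2 - α ^ 2) * (T ^ 2 - β ^ 2) := by
          have h5 : α ^ 2 + β ^ 2 = P2 / 2 := by
            rw [hα, hβ]; ring
          rw [← h5, ← hprod]
          ring
        rw [h4]
        rcases hT with h | h
        · rw [h]; ring
        · rw [h]; ring
      intro i
      fin_cases i
      · exact hroot α (Or.inl rfl)
      · exact hroot (-α) (Or.inl (neg_sq α))
      · exact hroot β (Or.inr rfl)
      · exact hroot (-β) (Or.inr (neg_sq β)))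
  refine ⟨![α, β], g, h, hgh, hhg, ?_⟩
  simpa using hXg

end Pool.Agent.Lib.MP_d55432_al.SIX.H87
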